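import Mathlib
import Pool.Agent.H.MP_fef6c2_gt.A

open Set Filter Topology Complex

namespace Pool.Agent.H.MP_563419_an

abbrev E := Fin 2 → ℂ

lemma line {F : E → ℂ} (hF : Differentiable ℂ F) (z v : E) (s : ℂ) :
    HasDerivAt (fun s : ℂ => F (z + s • v)) (fderiv ℂ F (z + s • v) v) s := by
  have := (hF (z + s • v)).hasFDerivAt.comp_hasDerivAt s
    (((hasDerivAt_id s).smul_const v).const_add z)
  rwa [one_smul] at this

lemma cd {F : E → ℂ} (hF : Differentiable ℂ F) (v : E) : Continuous fun z => fderiv ℂ F z v := by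
  have : ∀ z, fderiv ℂ F z v =
      (2 * Real.pi * I)⁻¹ • ∮ s in C(0, 1), (1 / (s - 0) ^ 2) • F (z + s • v) := fun z => by
    have d : Differentiable ℂ fun s : ℂ => F (z + s • v) := fun s => (line hF z v s).differentiableAt
    rw [d.differentiableOn.deriv_eq_smul_circleIntegral one_pos, smul_smul,
      inv_mul_cancel₀ two_pi_I_ne_zero, one_smul, (line hF z v 0).deriv]
    simp
  simp only [this, circleIntegral]
  apply Continuous.fun_const_smul
  apply intervalIntegral.continuous_parametric_intervalIntegral_of_continuous'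
  have c := hF.continuous
  have c1 : Continuous fun θ : ℝ => 1 / (circleMap 0 1 θ - 0) ^ 2 :=
    continuous_const.div (by fun_prop) fun θ => by simp [circleMap_ne_center]
  simp only [deriv_circleMap]
  exact (show Continuous fun p : E × ℝ => circleMap 0 1 p.2 * I by fun_prop).smul
    ((c1.comp continuous_snd).smul (by fun_prop))

lemma quot {G : E → ℂ} (hG : Differentiable ℂ G) (h : ∀ z, G z = 0 ↔ z 0 * z 1 = 1) :
    ∃ u : E → ℂ, Continuous u ∧ (∀ z, z 0 * z 1 ≠ 1 → u z ≠ 0) ∧
      ∀ z, z 0 * z 1 = 1 → z 0 * u z = fderiv ℂ G z ![0, 1] := by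
  set W : E × ℂ → ℂ := fun p => ∫ s in (0 : ℝ)..1,
    fderiv ℂ G (![p.1 0, p.2] + ((s : ℂ) * (p.1 1 - p.2)) • ![0, 1]) ![0, 1] with hW
  have cW : Continuous W := by
    refine intervalIntegral.continuous_parametric_intervalIntegral_of_continuous'
      (μ := MeasureTheory.volume) ?_ _ _
    exact (cd hG ![0, 1]).comp (f := fun q : (E × ℂ) × ℝ =>
      ![q.1.1 0, q.1.2] + ((q.2 : ℂ) * (q.1.1 1 - q.1.2)) • ![0, 1])
      (Continuous.add (continuous_pi fun i => by fin_cases i <;> simp <;> fun_prop) (by fun_prop))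
  have ftc : ∀ z p, G z - G ![z 0, p] = (z 1 - p) * W (z, p) := fun z p => by
    have := intervalIntegral.integral_eq_sub_of_hasDerivAt (a := 0) (b := 1)
      (f := fun s : ℝ => G (![z 0, p] + ((s : ℂ) * (z 1 - p)) • ![0, 1]))
      (f' := fun s : ℝ => (z 1 - p) *
        fderiv ℂ G (![z 0, p] + ((s : ℂ) * (z 1 - p)) • ![0, 1]) ![0, 1])
      (fun s _ => by
        have := ((line hG ![z 0, p] ![0, 1] ((s : ℂ) * (z 1 - p))).comp (s : ℂ)
          ((hasDerivAt_id (s : ℂ)).mul_const (z 1 - p))).comp_ofReal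
        simpa [mul_comm] using this)
      (Continuous.intervalIntegrable (continuous_const.mul ((cd hG _).comp (by fun_prop))) _ _)
    rw [intervalIntegral.integral_const_mul] at this
    rw [hW, this]
    congr 2 <;> ext i <;> fin_cases i <;> simp
  set u : E → ℂ := fun z => if z 0 = 0 then -G z else (z 0)⁻¹ * W (z, (z 0)⁻¹) with hu
  have e : ∀ z, G z = (z 0 * z 1 - 1) * u z := fun z => by
    by_cases h0 : z 0 = 0
    · simp [hu, h0]
    · have := ftc z (z 0)⁻¹
      rw [(h ![z 0, (z 0)⁻¹]).2 (by simp [h0]), sub_zero] at this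
      simp only [hu, h0, if_false, this]
      field_simp
  refine ⟨u, continuous_iff_continuousAt.2 fun z => ?_, fun z hz h0 => hz ((h z).1 (by
    rw [e, h0, mul_zero])), fun z hz => ?_⟩
  · by_cases h0 : z 0 = 0
    · have n : z 0 * z 1 - 1 ≠ 0 := by simp [h0]
      have c : ContinuousAt (fun z : E => z 0 * z 1 - 1) z := by fun_prop
      refine (hG.continuous.continuousAt.div c n).congr ?_
      filter_upwards [c.eventually_ne n] with w hw
      rw [Pi.div_apply, e, mul_div_cancel_left₀ _ hw]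
    · have c : ContinuousAt (fun z : E => (z 0)⁻¹) z := (continuous_apply 0).continuousAt.inv₀ h0
      refine (c.mul (cW.continuousAt.comp (continuousAt_id.prodMk c))).congr ?_
      filter_upwards [(continuous_apply 0).continuousAt.eventually_ne h0] with w hw
      simp [hu, hw]
  · have h0 : z 0 ≠ 0 := left_ne_zero_of_mul_eq_one hz
    have h1 : (z 0)⁻¹ = z 1 := inv_eq_of_mul_eq_one_right hz
    simp only [hu, h0, if_false, mul_inv_cancel_left₀ h0]
    simp [hW, h1, show ![z 0, z 1] = z by ext i; fin_cases i <;> rfl]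

lemma nolog {v : E → ℂ} (c : Continuous v) (n : ∀ z, v z ≠ 0)
    (h : ∀ z, z 0 * z 1 = 1 → v z = z 0) : False := by
  obtain ⟨L, hL, eL⟩ := MP_fef6c2_gt.clog convex_univ univ_nonempty c.continuousOn fun z _ => n z
  have cL := continuousOn_univ.1 hL
  have := MP_fef6c2_gt.const (h := fun s : ℂ => L ![exp s, exp (-s)] - s) isPreconnected_univ
    (((cL.comp (continuous_pi fun i => by fin_cases i <;> simp <;> fun_prop)).sub
      continuous_id).continuousOn)
    (fun s _ => by
      rw [exp_sub, eL _ trivial, h _ (by simp [← exp_add])]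
      simp [exp_ne_zero]) (x := 0) (y := 2 * Real.pi * I) trivial trivial
  simp only [exp_neg, exp_zero, exp_two_pi_mul_I, sub_right_inj, neg_zero, inv_one] at this
  exact two_pi_I_ne_zero this.symm

theorem main (Φ : E ≃ E) (d1 : Differentiable ℂ Φ) (d2 : Differentiable ℂ Φ.symm)
    (h : ∀ z, z 0 * z 1 = 1 → Φ z = ![z 0, z 1 ^ 2]) : False := by
  set A : E → ℂ := fun z => Φ z 0 with hA
  set B : E → ℂ := fun z => Φ z 1 with hB
  have dA : Differentiable ℂ A := differentiable_pi.1 d1 0
  have dB : Differentiable ℂ B := differentiable_pi.1 d1 1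
  have dec : ∀ (L : E →L[ℂ] ℂ) (a b : ℂ), L ![a, b] = a * L ![1, 0] + b * L ![0, 1] := fun L a b => by
    rw [← smul_eq_mul, ← smul_eq_mul, ← map_smul, ← map_smul, ← map_add]
    congr 1; ext i; fin_cases i <;> simp
  set J : E → ℂ := fun z => fderiv ℂ A z ![1, 0] * fderiv ℂ B z ![0, 1] -
    fderiv ℂ A z ![0, 1] * fderiv ℂ B z ![1, 0] with hJ
  have nJ : ∀ z, J z ≠ 0 := fun z hz => by
    have inj : ∀ a b : ℂ, fderiv ℂ A z ![a, b] = 0 → fderiv ℂ B z ![a, b] = 0 → a = 0 ∧ b = 0 :=
      fun a b h1 h2 => by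
        have k := (d2 (Φ z)).hasFDerivAt.comp z (d1 z).hasFDerivAt
        rw [Equiv.symm_comp_self] at k
        have k2 := congrArg (· ![a, b]) (k.unique (hasFDerivAt_id z))
        have k3 : fderiv ℂ Φ z ![a, b] = 0 := by
          rw [fderiv_pi (differentiableAt_pi.1 (d1 z))]
          ext i; fin_cases i
          · exact h1
          · exact h2
        simp only [ContinuousLinearMap.comp_apply, k3, map_zero] at k2
        exact ⟨by simpa using (congrFun k2 0).symm, by simpa using (congrFun k2 1).symm⟩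
    simp only [hJ] at hz
    obtain ⟨a1, a0⟩ := inj (fderiv ℂ A z ![0, 1]) (-fderiv ℂ A z ![1, 0])
      (by rw [dec]; ring) (by rw [dec]; linear_combination -hz)
    obtain ⟨b1, b0⟩ := inj (fderiv ℂ B z ![0, 1]) (-fderiv ℂ B z ![1, 0])
      (by rw [dec]; linear_combination hz) (by rw [dec]; ring)
    exact one_ne_zero (inj 1 0 (neg_eq_zero.1 a0) (neg_eq_zero.1 b0)).1
  obtain ⟨u, cu, nu, eu⟩ := quot (G := fun z => A z ^ 2 * B z - 1) (by fun_prop) fun z => by
    refine ⟨fun hz => ?_, fun hz => by simp only [hA, hB, h z hz]; simp [← mul_pow, hz]⟩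
    have k : A z * (A z * B z) = 1 := by linear_combination hz
    have := h ![A z, A z * B z] k
    have e : Φ ![A z, A z * B z] = Φ z := by
      rw [this]; ext i; fin_cases i
      · rfl
      · show (A z * B z) ^ 2 = B z
        linear_combination B z * k
    rw [← Φ.injective e]
    exact k
  have key : ∀ z, z 0 * z 1 = 1 → u z = z 0 * J z := fun z hz => by
    have h0 : z 0 ≠ 0 := left_ne_zero_of_mul_eq_one hz
    have h1 : (z 0)⁻¹ = z 1 := inv_eq_of_mul_eq_one_right hz
    have ez : ![z 0, (z 0)⁻¹] = z := by rw [h1]; ext i; fin_cases i <;> rfl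
    have γ : HasDerivAt (fun t : ℂ => (![t, t⁻¹] : E)) ![1, -(z 0 ^ 2)⁻¹] (z 0) :=
      hasDerivAt_pi.2 fun i => by
        fin_cases i
        · exact hasDerivAt_id _
        · exact hasDerivAt_inv h0
    have nb : ∀ᶠ t in 𝓝 (z 0), Φ ![t, t⁻¹] = ![t, t⁻¹ ^ 2] := by
      filter_upwards [eventually_ne_nhds h0] with t ht
      exact h _ (mul_inv_cancel₀ ht)
    have a := ((dA _).hasFDerivAt.comp_hasDerivAt _ γ).unique
      ((hasDerivAt_id (z 0)).congr_of_eventuallyEq (nb.mono fun t ht => congrFun ht 0))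
    have b := ((dB _).hasFDerivAt.comp_hasDerivAt _ γ).unique
      (((hasDerivAt_inv h0).pow 2).congr_of_eventuallyEq (nb.mono fun t ht => congrFun ht 1))
    rw [ez, dec] at a b
    have g := ((((dA z).hasFDerivAt.pow 2).mul (dB z).hasFDerivAt).sub_const 1).fderiv
    have e := eu z hz
    have a0 : A z = z 0 := by simp only [hA, h z hz]; rfl
    have b0 : B z = z 1 ^ 2 := by simp only [hB, h z hz]; rfl
    erw [g] at e
    simp only [add_apply, smul_apply, smul_eq_mul, a0, b0, ← h1, ← inv_pow, Nat.add_one_sub_one,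
      pow_one, nsmul_eq_mul, Nat.cast_ofNat] at e a b
    apply mul_left_cancel₀ h0
    rw [e, hJ]
    simp only [eq_sub_of_add_eq (one_mul (fderiv ℂ A z ![1, 0]) ▸ a),
      eq_sub_of_add_eq (one_mul (fderiv ℂ B z ![1, 0]) ▸ b)]
    field_simp
    ring
  refine nolog (v := fun z => u z / J z) (cu.div (((cd dA _).mul (cd dB _)).sub
    ((cd dA _).mul (cd dB _))) nJ) (fun z => div_ne_zero ?_ (nJ z)) fun z hz => by
      rw [key z hz, mul_div_cancel_right₀ _ (nJ z)]
  by_cases hz : z 0 * z 1 = 1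
  · rw [key z hz]; exact mul_ne_zero (left_ne_zero_of_mul_eq_one hz) (nJ z)
  · exact nu z hz

end Pool.Agent.H.MP_563419_an
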